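import Mathlib

/-!
# A marginally unstable discrete-time switching system with logarithmic growth
-/

set_option autoImplicit false

open Filter Topology Asymptotics

namespace Pool.Agent.Results.MP_653f52_an.LogGrowth

attribute [local instance] Matrix.linftyOpNormedAddCommGroup

/-- A trajectory of the discrete-time switching system defined by `S`. -/
def IsTrajectory {d : ℕ} (S : Set (Matrix (Fin d) (Fin d) ℝ)) (x : ℕ → Fin d → ℝ) : Prop :=
  ∀ k, ∃ M ∈ S, x (k + 1) = M.mulVec (x k)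

/-- The norms of the products of `k` matrices of `S` (operator norm for the sup norm). -/
def prodNorms {d : ℕ} (S : Set (Matrix (Fin d) (Fin d) ℝ)) (k : ℕ) : Set ℝ :=
  {r | ∃ l : List (Matrix (Fin d) (Fin d) ℝ), l.length = k ∧ (∀ M ∈ l, M ∈ S) ∧ r = ‖l.prod‖}

/-- The joint spectral radius of `S` exists and is equal to `ρ`. -/
def HasJointSpectralRadius {d : ℕ} (S : Set (Matrix (Fin d) (Fin d) ℝ)) (ρ : ℝ) : Prop :=
  (∀ k, BddAbove (prodNorms S k)) ∧
    Tendsto (fun k : ℕ => sSup (prodNorms S k) ^ (1 / (k : ℝ))) atTop (𝓝 ρ)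

/-- The system is bounded: all its trajectories are bounded. -/
def IsBoundedSystem {d : ℕ} (S : Set (Matrix (Fin d) (Fin d) ℝ)) : Prop :=
  ∀ x, IsTrajectory S x → ∃ C, ∀ k, ‖x k‖ ≤ C

/-- Marginal instability. -/
def IsMarginallyUnstable {d : ℕ} (S : Set (Matrix (Fin d) (Fin d) ℝ)) : Prop :=
  HasJointSpectralRadius S 1 ∧ ¬ IsBoundedSystem S

/-- Subpolynomial growth: `‖x(k)‖ = O(k^α)` for every trajectory and every `α > 0`. -/
def HasSubpolynomialGrowth {d : ℕ} (S : Set (Matrix (Fin d) (Fin d) ℝ)) : Prop :=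
  ∀ x, IsTrajectory S x → ∀ α : ℝ, 0 < α →
    (fun k : ℕ => ‖x k‖) =O[atTop] fun k : ℕ => (k : ℝ) ^ α

/-! ### The example -/

/-- The matrix number `n`; the off-diagonal entry is `n + 1` times the defect of the corner. -/
noncomputable def Mt (n : ℕ) : Matrix (Fin 2) (Fin 2) ℝ :=
  !![1, (1 / 2) ^ n; 0, 1 - (1 / 2) ^ n / (n + 1)]

/-- The family. -/
noncomputable def Fam : Set (Matrix (Fin 2) (Fin 2) ℝ) := insert 1 (Set.range Mt)

lemma Fam_compact : IsCompact Fam := by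
  have h1 : Tendsto (fun n : ℕ => ((1 : ℝ) / 2) ^ n) atTop (𝓝 0) :=
    tendsto_pow_atTop_nhds_zero_of_lt_one (by norm_num) (by norm_num)
  have h2 : Tendsto (fun n : ℕ => 1 - ((1 : ℝ) / 2) ^ n / (n + 1)) atTop (𝓝 1) := by
    have h3 : Tendsto (fun n : ℕ => ((1 : ℝ) / 2) ^ n / (n + 1)) atTop (𝓝 0) := by
      refine squeeze_zero (fun n => by positivity) (fun n => ?_) h1
      exact div_le_self (by positivity) (by linarith [(Nat.cast_nonneg n : (0:ℝ) ≤ n)])
    simpa using h3.const_sub 1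
  have h : Tendsto Mt atTop (𝓝 1) := by
    have e : (1 : Matrix (Fin 2) (Fin 2) ℝ) = !![1, 0; 0, 1] := by
      ext i j; fin_cases i <;> fin_cases j <;> rfl
    rw [e]
    refine tendsto_pi_nhds.2 fun i => tendsto_pi_nhds.2 fun j => ?_
    fin_cases i <;> fin_cases j
    · exact tendsto_const_nhds
    · exact h1
    · exact tendsto_const_nhds
    · exact h2
  exact h.isCompact_insert_range

/-- The parameters `(u, w)` of an element of the family: `u` is the off-diagonal entry and `w` is the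
defect. -/
lemma mem_Fam {M : Matrix (Fin 2) (Fin 2) ℝ} (h : M ∈ Fam) (N : ℕ) :
    ∃ u w : ℝ, M = !![1, u; 0, 1 - w] ∧ 0 ≤ u ∧ 0 ≤ w ∧ w ≤ 1 ∧
      (u ≤ (1 / 2) ^ (N + 1) ∨ u ≤ (N + 1) * w) := by
  rcases h with rfl | ⟨n, rfl⟩
  · refine ⟨0, 0, ?_, le_rfl, le_rfl, zero_le_one, Or.inl (by positivity)⟩
    ext i j; fin_cases i <;> fin_cases j <;> simp
  · have hp : ((1 : ℝ) / 2) ^ n ≤ 1 := pow_le_one₀ (by norm_num) (by norm_num)
    have hn : (0 : ℝ) < (n : ℝ) + 1 := by positivity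
    refine ⟨(1 / 2) ^ n, (1 / 2) ^ n / (n + 1), rfl, by positivity, by positivity,
      (div_le_one hn).2 (by linarith [(Nat.cast_nonneg n : (0:ℝ) ≤ n)]), ?_⟩
    rcases Nat.lt_or_ge N n with hN | hN
    · left
      exact pow_le_pow_of_le_one (by norm_num) (by norm_num) hN
    · right
      have hN' : (n : ℝ) ≤ N := by exact_mod_cast hN
      rw [mul_div_assoc', le_div_iff₀ hn]
      have : 0 ≤ ((1 : ℝ) / 2) ^ n := by positivity
      nlinarith

/-- The growth bound for a trajectory. -/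
lemma growth (x : ℕ → Fin 2 → ℝ) (hx : IsTrajectory Fam x) (K : ℕ) :
    |x K 1| ≤ |x 0 1| ∧ |x K 0| ≤ |x 0 0| + (Nat.log 2 K + 2) * |x 0 1| := by
  set N := Nat.log 2 K with hN
  have hstep : ∀ k, ∃ u w : ℝ, x (k + 1) 0 = x k 0 + u * x k 1 ∧ x (k + 1) 1 = (1 - w) * x k 1 ∧
      0 ≤ u ∧ 0 ≤ w ∧ w ≤ 1 ∧ (u ≤ (1 / 2) ^ (N + 1) ∨ u ≤ (N + 1) * w) := by
    intro k
    obtain ⟨M, hM, hk⟩ := hx k
    obtain ⟨u, w, rfl, h1, h2, h3, h4⟩ := mem_Fam hM N
    refine ⟨u, w, ?_, ?_, h1, h2, h3, h4⟩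
    · rw [hk]; simp [Matrix.mulVec, dotProduct, Fin.sum_univ_two]
    · rw [hk]; simp [Matrix.mulVec, dotProduct, Fin.sum_univ_two]
  have hinv : ∀ k : ℕ, |x k 1| ≤ |x 0 1| ∧ |x k 0| ≤ |x 0 0| + k * (1 / 2) ^ (N + 1) * |x 0 1| +
      (N + 1) * (|x 0 1| - |x k 1|) := by
    intro k
    induction k with
    | zero => simp
    | succ k ih =>
      obtain ⟨u, w, e0, e1, h1, h2, h3, h4⟩ := hstep k
      obtain ⟨i1, i2⟩ := ih
      have hw : |x (k + 1) 1| = (1 - w) * |x k 1| := by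
        rw [e1, abs_mul, abs_of_nonneg (by linarith)]
      have hxk : 0 ≤ |x k 1| := abs_nonneg _
      have hle : |x (k + 1) 1| ≤ |x k 1| := by rw [hw]; nlinarith
      refine ⟨hle.trans i1, ?_⟩
      have ha : |x (k + 1) 0| ≤ |x k 0| + u * |x k 1| := by
        rw [e0]
        refine (abs_add_le _ _).trans ?_
        rw [abs_mul, abs_of_nonneg h1]
      have hb : u * |x k 1| ≤ (1 / 2) ^ (N + 1) * |x 0 1| + (N + 1) * (|x k 1| - |x (k + 1) 1|) := by
        have hd : |x k 1| - |x (k + 1) 1| = w * |x k 1| := by rw [hw]; ring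
        have hp : (0:ℝ) ≤ (1 / 2) ^ (N + 1) * |x 0 1| := by positivity
        have hq : (0:ℝ) ≤ (N + 1) * (|x k 1| - |x (k + 1) 1|) := by
          rw [hd]; positivity
        rcases h4 with h | h
        · have : u * |x k 1| ≤ (1 / 2) ^ (N + 1) * |x 0 1| := by gcongr
          linarith
        · have : u * |x k 1| ≤ (N + 1) * (|x k 1| - |x (k + 1) 1|) := by
            rw [hd, ← mul_assoc]; gcongr
          linarith
      push_cast
      have : ((k : ℝ) + 1) * (1 / 2) ^ (N + 1) * |x 0 1| =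
        k * (1 / 2) ^ (N + 1) * |x 0 1| + (1 / 2) ^ (N + 1) * |x 0 1| := by ring
      rw [this]
      linarith
  obtain ⟨h1, h2⟩ := hinv K
  refine ⟨h1, h2.trans ?_⟩
  have h3 : (K : ℝ) * (1 / 2) ^ (N + 1) ≤ 1 := by
    have h4 : K < 2 ^ (N + 1) := Nat.lt_pow_succ_log_self (by norm_num) K
    have h5 : (K : ℝ) ≤ 2 ^ (N + 1) := by exact_mod_cast h4.le
    rw [one_div, inv_pow, ← div_eq_mul_inv]
    exact (div_le_one (by positivity)).2 h5
  have h6 : (K : ℝ) * (1 / 2) ^ (N + 1) * |x 0 1| ≤ 1 * |x 0 1| := by gcongr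
  have h7 : ((N : ℝ) + 1) * (|x 0 1| - |x K 1|) ≤ (N + 1) * |x 0 1| := by
    have : 0 ≤ |x K 1| := abs_nonneg _
    gcongr
    linarith
  linarith

/-- The entries of products. -/
lemma prod_entries (N : ℕ) (l : List (Matrix (Fin 2) (Fin 2) ℝ)) (hl : ∀ M ∈ l, M ∈ Fam) :
    ∃ a b : ℝ, l.prod = !![1, a; 0, b] ∧ 0 ≤ b ∧ b ≤ 1 ∧
      0 ≤ a ∧ a ≤ l.length * (1 / 2) ^ (N + 1) + (N + 1) * (1 - b) := by
  induction l with
  | nil =>
    refine ⟨0, 1, ?_, zero_le_one, le_rfl, le_rfl, by simp⟩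
    ext i j; fin_cases i <;> fin_cases j <;> simp
  | cons M l ih =>
    obtain ⟨a, b, h1, h2, h3, h4, h5⟩ := ih fun M hM => hl M (List.mem_cons_of_mem _ hM)
    obtain ⟨u, w, rfl, g1, g2, g3, g4⟩ := mem_Fam (hl M List.mem_cons_self) N
    refine ⟨a + u * b, (1 - w) * b, ?_, mul_nonneg (by linarith) h2, by nlinarith,
      by positivity, ?_⟩
    · rw [List.prod_cons, h1]
      ext i j; fin_cases i <;> fin_cases j <;> simp [Matrix.mul_apply, Fin.sum_univ_two]
    · have hb : u * b ≤ (1 / 2) ^ (N + 1) + (N + 1) * (w * b) := by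
        have hp : (0:ℝ) ≤ (1 / 2) ^ (N + 1) := by positivity
        have hq : (0:ℝ) ≤ (N + 1) * (w * b) := by positivity
        rcases g4 with h | h
        · have : u * b ≤ (1 / 2) ^ (N + 1) * 1 := by gcongr
          linarith
        · have : u * b ≤ (N + 1) * (w * b) := by
            rw [← mul_assoc]; gcongr
          linarith
      rw [List.length_cons]
      push_cast
      linarith

lemma norm_eq (a b : ℝ) (ha : 0 ≤ a) (hb : 0 ≤ b) (hb1 : b ≤ 1) :
    ‖(!![1, a; 0, b] : Matrix (Fin 2) (Fin 2) ℝ)‖ = 1 + a := by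
  rw [Matrix.linfty_opNorm_def]
  have : (Finset.univ : Finset (Fin 2)).sup
      (fun i : Fin 2 => ∑ j : Fin 2, ‖(!![1, a; 0, b] : Matrix (Fin 2) (Fin 2) ℝ) i j‖₊) =
      (1 + a).toNNReal := by
    apply le_antisymm
    · refine Finset.sup_le fun i _ => ?_
      rw [← NNReal.coe_le_coe, Real.coe_toNNReal _ (by linarith)]
      push_cast
      fin_cases i
      · simp [Fin.sum_univ_two, abs_of_nonneg ha]
      · simp [Fin.sum_univ_two, abs_of_nonneg hb]; linarith
    · refine le_trans ?_ (Finset.le_sup (Finset.mem_univ (0 : Fin 2)))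
      rw [← NNReal.coe_le_coe, Real.coe_toNNReal _ (by linarith)]
      push_cast
      simp [Fin.sum_univ_two, abs_of_nonneg ha]
  rw [this, Real.coe_toNNReal _ (by linarith)]

lemma prod_norm_le (l : List (Matrix (Fin 2) (Fin 2) ℝ)) (hl : ∀ M ∈ l, M ∈ Fam) :
    ‖l.prod‖ ≤ Nat.log 2 l.length + 3 := by
  obtain ⟨a, b, h1, h2, h3, h4, h5⟩ := prod_entries (Nat.log 2 l.length) l hl
  rw [h1, norm_eq a b h4 h2 h3]
  set N := Nat.log 2 l.length with hN
  have h6 : (l.length : ℝ) * (1 / 2) ^ (N + 1) ≤ 1 := by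
    have h4 : l.length < 2 ^ (N + 1) := Nat.lt_pow_succ_log_self (by norm_num) l.length
    have h5 : (l.length : ℝ) ≤ 2 ^ (N + 1) := by exact_mod_cast h4.le
    rw [one_div, inv_pow, ← div_eq_mul_inv]
    exact (div_le_one (by positivity)).2 h5
  have h7 : ((N : ℝ) + 1) * (1 - b) ≤ (N + 1) * 1 := by gcongr; linarith
  linarith

lemma log_le (k : ℕ) (hk : 1 ≤ k) : (Nat.log 2 k : ℝ) ≤ 2 * Real.log k := by
  have h1 : (2 : ℝ) ^ (Nat.log 2 k) ≤ k := by exact_mod_cast Nat.pow_log_le_self 2 (by omega)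
  have h2 := Real.log_le_log (by positivity) h1
  rw [Real.log_pow] at h2
  have h3 : (1 : ℝ) / 2 ≤ Real.log 2 := by linarith [Real.log_two_gt_d9]
  have h4 : (0:ℝ) ≤ Nat.log 2 k := Nat.cast_nonneg _
  nlinarith

lemma jsr : HasJointSpectralRadius Fam 1 := by
  have hmem : ∀ k, (1 : ℝ) ∈ prodNorms Fam k := by
    intro k
    refine ⟨List.replicate k 1, List.length_replicate, fun M hM => ?_, ?_⟩
    · rw [List.eq_of_mem_replicate hM]; exact Set.mem_insert _ _
    · rw [List.prod_replicate, one_pow]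
      have : (1 : Matrix (Fin 2) (Fin 2) ℝ) = !![1, 0; 0, 1] := by
        ext i j; fin_cases i <;> fin_cases j <;> rfl
      rw [this, norm_eq 0 1 le_rfl zero_le_one le_rfl]; norm_num
  have hub : ∀ k, ∀ r ∈ prodNorms Fam k, r ≤ (Nat.log 2 k : ℝ) + 3 := by
    rintro k r ⟨l, rfl, hl, rfl⟩
    exact prod_norm_le l hl
  refine ⟨fun k => ⟨_, hub k⟩, ?_⟩
  have hlo : ∀ k, 1 ≤ sSup (prodNorms Fam k) := fun k => le_csSup ⟨_, hub k⟩ (hmem k)
  have hhi : ∀ k, sSup (prodNorms Fam k) ≤ (Nat.log 2 k : ℝ) + 3 := fun k =>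
    csSup_le ⟨1, hmem k⟩ (hub k)
  have hlim : Tendsto (fun k : ℕ => (4 * (k : ℝ)) ^ (1 / (k : ℝ))) atTop (𝓝 1) := by
    have h1 : Tendsto (fun x : ℝ => (4 : ℝ) ^ (1 / x)) atTop (𝓝 1) := by
      have h2 : Tendsto (fun x : ℝ => 1 / x) atTop (𝓝 0) := by
        simpa using tendsto_inv_atTop_zero (𝕜 := ℝ)
      have h3 := (tendsto_const_nhds (x := (4:ℝ))).rpow h2 (Or.inl (by norm_num))
      simpa using h3
    have h4 := tendsto_rpow_div
    have h5 := (h1.mul h4).comp tendsto_natCast_atTop_atTop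
    rw [mul_one] at h5
    refine h5.congr fun k => ?_
    simp only [Function.comp_apply]
    rw [Real.mul_rpow (by norm_num) (Nat.cast_nonneg k)]
  refine tendsto_of_tendsto_of_tendsto_of_le_of_le' tendsto_const_nhds hlim ?_ ?_
  · filter_upwards [eventually_ge_atTop 1] with k hk
    exact Real.one_le_rpow (hlo k) (by positivity)
  · filter_upwards [eventually_ge_atTop 1] with k hk
    have hk' : (1:ℝ) ≤ k := by exact_mod_cast hk
    refine Real.rpow_le_rpow (by linarith [hlo k]) ?_ (by positivity)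
    refine (hhi k).trans ?_
    have h1 : (Nat.log 2 k : ℝ) ≤ k := by exact_mod_cast Nat.log_le_self 2 k
    linarith

lemma subpoly : HasSubpolynomialGrowth Fam := by
  intro x hx α hα
  have hnorm : ∀ k, ‖x k‖ ≤ |x k 0| + |x k 1| := by
    intro k
    refine (pi_norm_le_iff_of_nonneg (by positivity)).2 fun i => ?_
    fin_cases i
    · simp
    · simp
  have h1 : ∀ k : ℕ, 1 ≤ k → ‖x k‖ ≤ (|x 0 0| + 3 * |x 0 1|) * 1 + 2 * |x 0 1| * Real.log k := by
    intro k hk
    obtain ⟨g1, g2⟩ := growth x hx k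
    have g3 := log_le k hk
    have g4 : ((Nat.log 2 k : ℝ) + 2) * |x 0 1| ≤ (2 * Real.log k + 2) * |x 0 1| := by gcongr
    linarith [hnorm k]
  have h2 : (fun k : ℕ => (|x 0 0| + 3 * |x 0 1|) * 1 + 2 * |x 0 1| * Real.log k) =O[atTop]
      fun k : ℕ => (k : ℝ) ^ α := by
    refine IsBigO.add ?_ ?_
    · refine IsBigO.const_mul_left ?_ _
      have h3 : (fun _ : ℝ => (1 : ℝ)) =O[atTop] fun x : ℝ => x ^ α := by
        refine IsBigO.of_bound 1 ?_
        filter_upwards [eventually_ge_atTop (1:ℝ)] with y hy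
        rw [norm_one, one_mul, Real.norm_of_nonneg (by positivity)]
        exact Real.one_le_rpow hy hα.le
      exact h3.comp_tendsto tendsto_natCast_atTop_atTop
    · refine IsBigO.const_mul_left ?_ _
      exact (isLittleO_log_rpow_atTop hα).isBigO.comp_tendsto tendsto_natCast_atTop_atTop
  refine IsBigO.trans (IsBigO.of_bound 1 ?_) h2
  filter_upwards [eventually_ge_atTop 1] with k hk
  rw [norm_norm, one_mul]
  exact (h1 k hk).trans (le_abs_self _)

/-! ### An unbounded trajectory -/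

/-- The index used at level `c`. -/
noncomputable def ix (c : ℝ) : ℕ := ⌈1 / c ^ 2⌉₊

/-- The excess of the second coordinate over `1/2`. -/
noncomputable def cs : ℕ → ℝ
  | 0 => 1 / 2
  | k + 1 => cs k - (1 / 2) ^ ix (cs k) / (ix (cs k) + 1) * (1 / 2 + cs k)

/-- The first coordinate. -/
noncomputable def as : ℕ → ℝ
  | 0 => 0
  | k + 1 => as k + (1 / 2) ^ ix (cs k) * (1 / 2 + cs k)

lemma cs_bounds (k : ℕ) : 0 < cs k ∧ cs k ≤ 1 / 2 ∧ cs k / 2 ≤ cs (k + 1) := by
  have key : ∀ c : ℝ, 0 < c → c ≤ 1 / 2 →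
      c / 2 ≤ c - (1 / 2) ^ ix c / (ix c + 1) * (1 / 2 + c) := by
    intro c hc hc2
    have h1 : 1 / c ^ 2 ≤ ix c := Nat.le_ceil _
    have h2 : 0 < 1 / c ^ 2 := by positivity
    have h3 : ((1 : ℝ) / 2) ^ ix c ≤ 1 := pow_le_one₀ (by norm_num) (by norm_num)
    have h4 : ((1 : ℝ) / 2) ^ ix c / (ix c + 1) ≤ c ^ 2 := by
      rw [div_le_iff₀ (by positivity)]
      have h5 : c ^ 2 * (1 / c ^ 2) = 1 := by field_simp
      have h6 : c ^ 2 * (1 / c ^ 2) ≤ c ^ 2 * ix c := by gcongr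
      nlinarith [sq_nonneg c]
    have h5 : ((1 : ℝ) / 2) ^ ix c / (ix c + 1) * (1 / 2 + c) ≤ c ^ 2 * 1 := by
      gcongr
      linarith
    nlinarith
  have hpos : ∀ k, 0 < cs k ∧ cs k ≤ 1 / 2 := by
    intro k
    induction k with
    | zero => exact ⟨by norm_num [cs], by norm_num [cs]⟩
    | succ k ih =>
      have := key (cs k) ih.1 ih.2
      have h6 : 0 ≤ ((1 : ℝ) / 2) ^ ix (cs k) / (ix (cs k) + 1) * (1 / 2 + cs k) := by
        have := ih.1
        positivity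
      exact ⟨by rw [cs]; linarith [ih.1], by rw [cs]; linarith [ih.2]⟩
  exact ⟨(hpos k).1, (hpos k).2, by rw [cs]; exact key _ (hpos k).1 (hpos k).2⟩

lemma cs_anti (k : ℕ) : cs (k + 1) ≤ cs k := by
  have h := (cs_bounds k).1
  have h6 : 0 ≤ ((1 : ℝ) / 2) ^ ix (cs k) / (ix (cs k) + 1) * (1 / 2 + cs k) := by positivity
  rw [cs]; linarith

lemma as_ge (k : ℕ) : (1 / 2) * (1 / cs k - 2) ≤ as k := by
  induction k with
  | zero => norm_num [cs, as]
  | succ k ih =>
    obtain ⟨h1, h2, h3⟩ := cs_bounds k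
    have h1' := (cs_bounds (k + 1)).1
    have h4 := cs_anti k
    have h5 : 1 / cs k ^ 2 ≤ ix (cs k) := Nat.le_ceil _
    -- the increment
    have h6 : (1 / 2 : ℝ) ^ ix (cs k) * (1 / 2 + cs k) = (ix (cs k) + 1) * (cs k - cs (k + 1)) := by
      rw [cs]
      have : (ix (cs k) : ℝ) + 1 ≠ 0 := by positivity
      field_simp
      ring
    have h7 : (1 / 2) * (1 / cs (k + 1) - 1 / cs k) ≤ (ix (cs k) + 1) * (cs k - cs (k + 1)) := by
      have e : 1 / cs (k + 1) - 1 / cs k = (cs k - cs (k + 1)) * (1 / (cs k * cs (k + 1))) := by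
        field_simp
      have h8 : 1 / (cs k * cs (k + 1)) ≤ 2 * (1 / cs k ^ 2) := by
        rw [mul_one_div, div_le_div_iff₀ (by positivity) (by positivity)]
        nlinarith
      have h9 : 0 ≤ cs k - cs (k + 1) := by linarith
      rw [e]
      calc (1 / 2) * ((cs k - cs (k + 1)) * (1 / (cs k * cs (k + 1)))) ≤
            (1 / 2) * ((cs k - cs (k + 1)) * (2 * (1 / cs k ^ 2))) := by gcongr
        _ = (1 / cs k ^ 2) * (cs k - cs (k + 1)) := by ring
        _ ≤ (ix (cs k) + 1) * (cs k - cs (k + 1)) := by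
          gcongr
          linarith
    rw [as, h6]
    linarith

lemma cs_tendsto : ∀ ε : ℝ, 0 < ε → ∃ k, cs k < ε := by
  intro ε hε
  by_contra hcon
  push Not at hcon
  -- the decrements are bounded below
  set m : ℕ := ⌈1 / ε ^ 2⌉₊ with hm
  have h1 : ∀ k, ix (cs k) ≤ m := by
    intro k
    apply Nat.ceil_le_ceil
    have := hcon k
    gcongr
  set δ : ℝ := (1 / 2) ^ m / (m + 1) * (1 / 2) with hδ
  have hδ0 : 0 < δ := by positivity
  have h2 : ∀ k, cs (k + 1) ≤ cs k - δ := by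
    intro k
    have h3 := (cs_bounds k).1
    have h4 : δ ≤ (1 / 2) ^ ix (cs k) / (ix (cs k) + 1) * (1 / 2 + cs k) := by
      have h5 : ((1:ℝ) / 2) ^ m ≤ (1 / 2) ^ ix (cs k) :=
        pow_le_pow_of_le_one (by norm_num) (by norm_num) (h1 k)
      have h6 : (ix (cs k) : ℝ) + 1 ≤ m + 1 := by
        have : (ix (cs k) : ℝ) ≤ m := by exact_mod_cast h1 k
        linarith
      rw [hδ]
      gcongr
      linarith
    rw [cs]
    linarith
  have h3 : ∀ k : ℕ, cs k ≤ 1 / 2 - k * δ := by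
    intro k
    induction k with
    | zero => norm_num [cs]
    | succ k ih =>
      have := h2 k
      push_cast
      linarith
  obtain ⟨k, hk⟩ := exists_nat_gt (1 / δ)
  have h4 : 1 < k * δ := by rwa [div_lt_iff₀ hδ0] at hk
  linarith [h3 k, (cs_bounds k).1]

lemma not_bounded : ¬ IsBoundedSystem Fam := by
  intro h
  obtain ⟨C, hC⟩ := h (fun k => ![as k, 1 / 2 + cs k]) (by
    intro k
    refine ⟨Mt (ix (cs k)), Or.inr ⟨_, rfl⟩, ?_⟩
    ext i
    fin_cases i
    · simp [Mt, Matrix.mulVec, dotProduct, Fin.sum_univ_two, as]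
    · simp [Mt, Matrix.mulVec, dotProduct, Fin.sum_univ_two, cs]
      ring)
  have hC0 : 0 ≤ C := (norm_nonneg _).trans (hC 0)
  obtain ⟨k, hk⟩ := cs_tendsto (1 / (2 * C + 4)) (by positivity)
  have h1 := (cs_bounds k).1
  have h2 : 2 * C + 4 < 1 / cs k := by
    rw [lt_div_iff₀ h1]
    rw [lt_div_iff₀ (by positivity)] at hk
    linarith
  have h3 := as_ge k
  have h4 : as k ≤ C := by
    refine le_trans (le_abs_self _) (le_trans ?_ (hC k))
    have := norm_le_pi_norm (![as k, 1 / 2 + cs k] : Fin 2 → ℝ) 0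
    simpa using this
  linarith

/-- There is a compact set of real `2 × 2` matrices whose discrete-time switching system is
marginally unstable and has subpolynomial growth; indeed every trajectory of it satisfies
`‖x(k)‖ ≤ ‖x(0)‖ (4 + 2 log k)` for `k ≥ 1`. -/
theorem result : ∃ S : Set (Matrix (Fin 2) (Fin 2) ℝ), IsCompact S ∧ S.Nonempty ∧
    IsMarginallyUnstable S ∧ HasSubpolynomialGrowth S ∧
    ∀ x, IsTrajectory S x → ∀ k : ℕ, 1 ≤ k → ‖x k‖ ≤ (4 + 2 * Real.log k) * ‖x 0‖ := by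
  refine ⟨Fam, Fam_compact, ⟨1, Set.mem_insert _ _⟩, ⟨jsr, not_bounded⟩, subpoly, ?_⟩
  intro x hx k hk
  obtain ⟨g1, g2⟩ := growth x hx k
  have g3 := log_le k hk
  have h0 : |x 0 0| ≤ ‖x 0‖ := by simpa using norm_le_pi_norm (x 0) 0
  have h1 : |x 0 1| ≤ ‖x 0‖ := by simpa using norm_le_pi_norm (x 0) 1
  have hlog : 0 ≤ Real.log k := Real.log_natCast_nonneg k
  have g4 : ((Nat.log 2 k : ℝ) + 2) * |x 0 1| ≤ (2 * Real.log k + 2) * ‖x 0‖ := by gcongr
  have h2 : 0 ≤ Real.log k * ‖x 0‖ := by positivity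
  refine (pi_norm_le_iff_of_nonneg (by positivity)).2 fun i => ?_
  fin_cases i
  · simp only [Fin.zero_eta, Real.norm_eq_abs]
    linarith [norm_nonneg (x 0)]
  · simp only [Fin.mk_one, Real.norm_eq_abs]
    linarith [norm_nonneg (x 0)]

end Pool.Agent.Results.MP_653f52_an.LogGrowth
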